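import Pool.Agent.TH309.LF.Contract
import Pool.Agent.TH309.LF.LI

/-!
# Contracting relations over a locally indicable group

The problem asks whether the fundamental group of every subcomplex `K` of a contractible
2-complex is locally indicable.  We prove this for the 2-complexes which are built from a point (or
from complexes for which it is known) by adjoining generators and relations which express each new
generator by elements of the kernel of a homomorphism `π` to `ℤ` and by conjugates of the new
generators by positive powers of an element `t` with `π t = 1`.  There is no condition on these
expressions and there may be any number of them.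
-/

set_option autoImplicit false

namespace Pool.Agent.Results.MP_cf50d6_gt.ContractingRelations

open Pool.Agent.TH309.LF

universe u

/-- The quotient of `P * B` by the relations `b = φ(b)`, `b ∈ B`. -/
abbrev Quo {P B : Type u} [Group P] [Group B] (φ : B →* Monoid.Coprod P B) : Type u :=
  Monoid.Coprod P B ⧸ Subgroup.normalClosure (contrRels φ)

/-- The canonical homomorphism from `P`. -/
def ofP {P B : Type u} [Group P] [Group B] (φ : B →* Monoid.Coprod P B) : P →* Quo φ :=
  (QuotientGroup.mk' (Subgroup.normalClosure (contrRels φ))).comp
    (Monoid.Coprod.inl : P →* Monoid.Coprod P B)

theorem result {P B : Type u} [Group P] [Group B] (hP : LocallyIndicable P)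
    (hB : LocallyIndicable B) (π : P →* Multiplicative ℤ) (t : P)
    (ht : π t = Multiplicative.ofAdd 1) (φ : B →* Monoid.Coprod P B)
    (hφ : ∀ b, φ b ∈ above π t B) :
    LocallyIndicable (Quo φ) ∧ Function.Injective (ofP φ) := by
  obtain ⟨h1, h2⟩ := contract π t ht φ hφ hP.horn hB.horn
  exact ⟨h1.locallyIndicable, h2⟩

end Pool.Agent.Results.MP_cf50d6_gt.ContractingRelations
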