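import Pool.Agent.TH309.LF.Main

/-!
# Layered labelled oriented graphs over locally indicable groups

The problem asks whether the fundamental group of every subcomplex of a contractible 2-complex is
locally indicable.  The presentation complexes of labelled oriented trees are subcomplexes of
contractible 2-complexes.  We prove local indicability for labelled oriented graphs which have a
level function such that at each level the relative initial graph, or at each level the relative
terminal graph (the choice may depend on the level), is a forest; the old vertices may be elements
of any locally indicable group with a homomorphism to `ℤ`.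
-/

set_option autoImplicit false

namespace Pool.Agent.Results.MP_cf50d6_gt.LayeredForests

open Pool.Agent.TH309.LF

universe u v

/-- The group obtained from `G₀` by adjoining one free generator for each new vertex `v : V` and
one relation `ini(e) lab(e) = lab(e) ter(e)` for each edge `e : E`; an old vertex `o : O` stands
for the element `old o` of `G₀`. -/
abbrev LogGroup {G₀ O V E : Type u} [Group G₀] (old : O → G₀) (ini ter lab : E → O ⊕ V) : Type u :=
  Monoid.Coprod G₀ (FreeGroup V) ⧸ Subgroup.normalClosure (Set.range (relator old ini ter lab))

/-- The canonical homomorphism from `G₀`. -/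
def ofOld {G₀ O V E : Type u} [Group G₀] (old : O → G₀) (ini ter lab : E → O ⊕ V) :
    G₀ →* LogGroup old ini ter lab :=
  (QuotientGroup.mk' (Subgroup.normalClosure (Set.range (relator old ini ter lab)))).comp
    (Monoid.Coprod.inl : G₀ →* Monoid.Coprod G₀ (FreeGroup V))

theorem result {L : Type v} [LinearOrder L] {G₀ O V E : Type u} [Group G₀]
    (hG₀ : LocallyIndicable G₀) (π : G₀ →* Multiplicative ℤ) (old : O → G₀)
    (hold : ∀ o, π (old o) = Multiplicative.ofAdd 1) (ini ter lab : E → O ⊕ V)
    (lev : V → L) (elev : E → L) (fwd : L → Bool)
    (hini : ∀ e v, ini e = Sum.inr v → lev v ≤ elev e)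
    (hter : ∀ e v, ter e = Sum.inr v → lev v ≤ elev e)
    (hlab : ∀ e v, lab e = Sum.inr v → lev v ≤ elev e)
    (hleaf : LeafyLevels ini ter lab lev elev fwd) :
    LocallyIndicable (LogGroup old ini ter lab) ∧
      Function.Injective (ofOld old ini ter lab) := by
  obtain ⟨h1, h2⟩ := layered fwd old ini ter lab _ _ (isGrp_quot old ini ter lab _ rfl) π hold
    hG₀.horn lev elev hini hter hlab hleaf
  exact ⟨h1.locallyIndicable, h2⟩

end Pool.Agent.Results.MP_cf50d6_gt.LayeredForests
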