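import Pool.Agent.TH625.LOG.Main

/-!
# Metabelian actions and the local indicability of the groups of labelled oriented graphs

Definitions (`Pool.Agent.TH625.LOG.Core`, `.Tree`, `.LI`, `.Met`, `.Main`):

* `LOG V E` (labelled oriented graph), `L.rel e = x_ini x_lab x_ter⁻¹ x_lab⁻¹`, `L.G` the group with
  generators `V` and relators `L.rel e`;
* the generators of the four sides `k : Fin 4` of the 2-cell of `e` are `L.sv e k`: `ini`, `lab`,
  `lab`, `ter`; with the base point `1` the initial points of the sides are `1`, `x_ini`, `1`,
  `x_lab`;
* `L.AlexCocycle ε t s`: the maps `(l, y) ↦ (l + ε, t y + s v l)` of `ℤ × ℝ` satisfy the relations;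
* `L.corner ε t s m y e k`: the image of the point `(m e, y e)` under the inverse of the initial
  point of the side `k`;
* `L.MetabelianTest`: for suitable parameters every 2-cell has a side whose corner is
  lexicographically smaller than all other corners at sides with the same generator;
* `LocInd G`: every nontrivial finitely generated subgroup of `G` maps onto `ℤ`;
* `L.Conn` (connected), `L.ContractibleWith v₀`: `L ∪ f`, `∂f = x_{v₀}`, is contractible (trivial
  fundamental group, injective integral boundary operator).
-/

set_option autoImplicit false

namespace Pool.Agent.Results.MP_cf50d6_gt.MetabelianActions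

open Pool.Agent.TH625.LOG

/-- Let `L` be the complex of a finite labelled oriented graph that passes the metabelian test.
Then its fundamental group is locally indicable.  If the graph is a tree, `L` is a subcomplex of
the contractible complex `L ∪ f`. -/
theorem result (V E : Type) [Fintype V] [DecidableEq V] [Fintype E] (L : LOG V E)
    (h : L.MetabelianTest) :
    LocInd L.G ∧
      (L.Conn → Fintype.card V = Fintype.card E + 1 → ∀ v₀ : V, L.ContractibleWith v₀) :=
  ⟨locInd_of_metabelian L h, contractibleWith L⟩

end Pool.Agent.Results.MP_cf50d6_gt.MetabelianActions
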